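import Mathlib

/-!
# The trivial lower bound for the order of the sequence of the integer parts of `x ^ c`
-/

set_option autoImplicit false

open Filter Finset

namespace Pool.Agent.Y935.RO

/-- The number of sums of at most `m` terms `⌊x ^ c⌋` up to `Y`. -/
theorem card_le (c : ℝ) (hc : 0 < c) (m Y : ℕ) (X : ℕ) (hX : ((Y : ℝ) + 1) ≤ (X : ℝ) ^ c)
    (hX1 : 1 ≤ X) (S : Finset ℕ)
    (hS : ∀ n ∈ S, n ≤ Y ∧ ∃ t ≤ m, ∃ x : Fin t → ℕ, (∀ i, 1 ≤ x i) ∧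
      ∑ i, ⌊(x i : ℝ) ^ c⌋₊ = n) :
    S.card ≤ (m + 1) * X ^ m := by
  classical
  -- every element is the value of a tuple
  have h1 : S ⊆ (range (m + 1)).biUnion (fun t =>
      (Fintype.piFinset (fun _ : Fin t => Finset.range X)).image
        (fun x => ∑ i, ⌊(x i : ℝ) ^ c⌋₊)) := by
    intro n hn
    obtain ⟨hnY, t, ht, x, hx1, hx⟩ := hS n hn
    rw [mem_biUnion]
    refine ⟨t, mem_range.2 (by omega), ?_⟩
    rw [mem_image]
    refine ⟨x, ?_, hx⟩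
    rw [Fintype.mem_piFinset]
    intro i
    rw [mem_range]
    by_contra hlt
    push Not at hlt
    have h2 : (X : ℝ) ^ c ≤ (x i : ℝ) ^ c :=
      Real.rpow_le_rpow (Nat.cast_nonneg _) (by exact_mod_cast hlt) hc.le
    have h3 : ((Y : ℝ) + 1) ≤ (x i : ℝ) ^ c := hX.trans h2
    have h4 : Y + 1 ≤ ⌊(x i : ℝ) ^ c⌋₊ := Nat.le_floor (by push_cast; exact h3)
    have h5 : ⌊(x i : ℝ) ^ c⌋₊ ≤ ∑ i, ⌊(x i : ℝ) ^ c⌋₊ :=
      Finset.single_le_sum (f := fun i => ⌊(x i : ℝ) ^ c⌋₊) (fun _ _ => Nat.zero_le _)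
        (mem_univ i)
    omega
  calc S.card ≤ _ := card_le_card h1
    _ ≤ ∑ t ∈ range (m + 1), ((Fintype.piFinset (fun _ : Fin t => Finset.range X)).image
        (fun x => ∑ i, ⌊(x i : ℝ) ^ c⌋₊)).card := card_biUnion_le
    _ ≤ ∑ t ∈ range (m + 1), X ^ m := by
        refine sum_le_sum fun t ht => ?_
        refine card_image_le.trans ?_
        rw [Fintype.card_piFinset]
        simp only [card_range, prod_const, card_univ, Fintype.card_fin]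
        exact Nat.pow_le_pow_right hX1 (by have := mem_range.1 ht; omega)
    _ = (m + 1) * X ^ m := by
        rw [sum_const, card_range, smul_eq_mul]

/-- Fewer than `c` (or `c`) terms do not suffice. -/
theorem low (c : ℝ) (hc : 0 < c) (m : ℕ) (hm : (m : ℝ) < c)
    (h : ∀ᶠ n : ℕ in atTop, ∃ t ≤ m, ∃ x : Fin t → ℕ, (∀ i, 1 ≤ x i) ∧
      ∑ i, ⌊(x i : ℝ) ^ c⌋₊ = n) : False := by
  obtain ⟨N, hN⟩ := eventually_atTop.1 h
  -- asymptotics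
  have hlim : Tendsto (fun Y : ℕ => (((Y : ℝ) + 1) ^ ((m : ℝ) / c)) / ((Y : ℝ) + 1)) atTop
      (nhds 0) := by
    have h1 : Tendsto (fun y : ℝ => y ^ (-(1 - (m : ℝ) / c))) atTop (nhds 0) := by
      refine tendsto_rpow_neg_atTop ?_
      have : (m : ℝ) / c < 1 := by rw [div_lt_one hc]; exact hm
      linarith
    have h2 : Tendsto (fun Y : ℕ => ((Y : ℝ) + 1)) atTop atTop :=
      tendsto_atTop_add_const_right _ _ tendsto_natCast_atTop_atTop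
    refine (h1.comp h2).congr ?_
    intro Y
    have h3 : (0 : ℝ) < (Y : ℝ) + 1 := by positivity
    simp only [Function.comp]
    rw [show (-(1 - (m : ℝ) / c)) = (m : ℝ) / c - 1 by ring, Real.rpow_sub_one h3.ne']
  have hlim2 : Tendsto (fun Y : ℕ => ((m : ℝ) + 1) * 2 ^ m *
      ((((Y : ℝ) + 1) ^ ((m : ℝ) / c)) / ((Y : ℝ) + 1)) + ((N : ℝ) + 1) / ((Y : ℝ) + 1)) atTop
      (nhds 0) := by
    have h2 : Tendsto (fun Y : ℕ => ((Y : ℝ) + 1)) atTop atTop :=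
      tendsto_atTop_add_const_right _ _ tendsto_natCast_atTop_atTop
    have h3 := (hlim.const_mul (((m : ℝ) + 1) * 2 ^ m)).add
      (Tendsto.const_div_atTop h2 ((N : ℝ) + 1))
    simpa using h3
  have hev := (hlim2.eventually (gt_mem_nhds (show (0 : ℝ) < 1 by norm_num)))
  obtain ⟨Y, hY1, hY2⟩ := (hev.and (eventually_ge_atTop (N + 1))).exists
  have hY0 : (0 : ℝ) < (Y : ℝ) + 1 := by positivity
  -- choice of X
  let X : ℕ := ⌈((Y : ℝ) + 1) ^ (1 / c)⌉₊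
  have hX1 : 1 ≤ X := Nat.one_le_iff_ne_zero.2 (by
    have : 0 < X := Nat.ceil_pos.2 (by positivity)
    omega)
  have hX : ((Y : ℝ) + 1) ≤ (X : ℝ) ^ c := by
    have h1 : ((Y : ℝ) + 1) ^ (1 / c) ≤ X := Nat.le_ceil _
    calc ((Y : ℝ) + 1) = (((Y : ℝ) + 1) ^ (1 / c)) ^ c := by
          rw [← Real.rpow_mul hY0.le, one_div_mul_cancel hc.ne', Real.rpow_one]
      _ ≤ (X : ℝ) ^ c := Real.rpow_le_rpow (by positivity) h1 hc.le
  have hX2 : (X : ℝ) ≤ 2 * ((Y : ℝ) + 1) ^ (1 / c) := by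
    have h1 : (X : ℝ) < ((Y : ℝ) + 1) ^ (1 / c) + 1 := Nat.ceil_lt_add_one (by positivity)
    have h2 : (1 : ℝ) ≤ ((Y : ℝ) + 1) ^ (1 / c) :=
      Real.one_le_rpow (by have : (0 : ℝ) ≤ Y := Nat.cast_nonneg _; linarith) (by positivity)
    linarith
  have hcard := card_le c hc m Y X hX hX1 (Finset.Icc N Y) (by
    intro n hn
    rw [Finset.mem_Icc] at hn
    exact ⟨hn.2, hN n hn.1⟩)
  rw [Nat.card_Icc] at hcard
  have hcard2 : ((Y : ℝ) + 1) - N ≤ (m + 1) * (X : ℝ) ^ m := by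
    have h1 : ((Y + 1 - N : ℕ) : ℝ) ≤ (((m + 1) * X ^ m : ℕ) : ℝ) := by exact_mod_cast hcard
    rw [Nat.cast_sub (by omega)] at h1
    push_cast at h1
    exact h1
  have h3 : (X : ℝ) ^ m ≤ 2 ^ m * ((Y : ℝ) + 1) ^ ((m : ℝ) / c) := by
    calc (X : ℝ) ^ m ≤ (2 * ((Y : ℝ) + 1) ^ (1 / c)) ^ m := by gcongr
      _ = 2 ^ m * ((Y : ℝ) + 1) ^ ((m : ℝ) / c) := by
          rw [mul_pow, ← Real.rpow_natCast (((Y : ℝ) + 1) ^ (1 / c)) m, ← Real.rpow_mul hY0.le]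
          congr 2
          ring
  have h4 : ((m : ℝ) + 1) * 2 ^ m * ((((Y : ℝ) + 1) ^ ((m : ℝ) / c)) / ((Y : ℝ) + 1)) +
      ((N : ℝ) + 1) / ((Y : ℝ) + 1) < 1 := hY1
  have h5 : ((m : ℝ) + 1) * 2 ^ m * (((Y : ℝ) + 1) ^ ((m : ℝ) / c)) + ((N : ℝ) + 1) <
      (Y : ℝ) + 1 := by
    have := mul_lt_mul_of_pos_right h4 hY0
    rw [one_mul, add_mul, div_mul_cancel₀ _ hY0.ne', mul_assoc, div_mul_cancel₀ _ hY0.ne'] at this
    exact this
  have h6 : ((m : ℝ) + 1) * (X : ℝ) ^ m ≤ ((m : ℝ) + 1) * (2 ^ m * ((Y : ℝ) + 1) ^ ((m : ℝ) / c)) := by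
    gcongr
  linarith

end Pool.Agent.Y935.RO
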